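import Mathlib

set_option autoImplicit false

/-!
# Two Dynkin arguments: asymptotically equal maps and mixing
-/

namespace Pool.Agent.Helper23.MM

open MeasureTheory ProbabilityTheory Filter Topology Set

open scoped symmDiff

variable {Ω ι : Type*} [mΩ : MeasurableSpace Ω] {P : Measure Ω} [IsProbabilityMeasure P]
  {l : Filter ι}

/-- two families of measure preserving maps which are eventually equal on a pi-system are
asymptotically equal on every measurable set -/
theorem asym_set {φ ψ : ι → Ω → Ω} (hφ : ∀ u, MeasurePreserving (φ u) P P)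
    (hψ : ∀ u, MeasurePreserving (ψ u) P P) {C : Set (Set Ω)} (hC : IsPiSystem C)
    (hgen : mΩ = MeasurableSpace.generateFrom C)
    (h : ∀ A ∈ C, ∀ᶠ u in l, φ u ⁻¹' A = ψ u ⁻¹' A) {A : Set Ω} (hA : MeasurableSet A) :
    Tendsto (fun u => P.real ((φ u ⁻¹' A) ∆ (ψ u ⁻¹' A))) l (𝓝 0) := by
  have hval : ∀ (B : Set Ω), MeasurableSet B → ∀ θ : Ω → Ω, MeasurePreserving θ P P →
      P.real (θ ⁻¹' B) = P.real B := by
    intro B hB θ hθ
    unfold Measure.real
    rw [hθ.measure_preimage hB.nullMeasurableSet]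
  induction A, hA using MeasurableSpace.induction_on_inter hgen hC with
  | empty => simpa using tendsto_const_nhds
  | basic t ht =>
    refine tendsto_const_nhds.congr' ?_
    filter_upwards [h t ht] with u hu
    rw [hu]; simp
  | compl t ht ih =>
    refine ih.congr fun u => ?_
    congr 1
    simp only [preimage_compl]
    ext x
    simp only [Set.mem_symmDiff, mem_compl_iff]
    tauto
  | iUnion t hd ht ih =>
    have hsum : Summable fun i => P.real (t i) := by
      have h1 : ∑' i, P (t i) ≠ ⊤ := by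
        rw [← measure_iUnion hd ht]; exact measure_ne_top _ _
      exact ENNReal.summable_toReal h1
    have hb : ∀ u i, P.real ((φ u ⁻¹' t i) ∆ (ψ u ⁻¹' t i)) ≤ 2 * P.real (t i) := by
      intro u i
      calc P.real ((φ u ⁻¹' t i) ∆ (ψ u ⁻¹' t i))
          ≤ P.real ((φ u ⁻¹' t i) ∪ (ψ u ⁻¹' t i)) := by
            refine measureReal_mono ?_ (measure_ne_top _ _)
            rintro x (⟨hx, -⟩ | ⟨hx, -⟩)
            · exact Or.inl hx
            · exact Or.inr hx
        _ ≤ P.real (φ u ⁻¹' t i) + P.real (ψ u ⁻¹' t i) := measureReal_union_le _ _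
        _ = 2 * P.real (t i) := by
            rw [hval _ (ht i) _ (hφ u), hval _ (ht i) _ (hψ u)]; ring
    have hdom := tendsto_tsum_of_dominated_convergence (𝓕 := l)
      (f := fun u i => P.real ((φ u ⁻¹' t i) ∆ (ψ u ⁻¹' t i))) (g := fun _ => 0)
      (bound := fun i => 2 * P.real (t i)) (hsum.mul_left 2) ih (Eventually.of_forall fun u i => by
        rw [Real.norm_of_nonneg measureReal_nonneg]
        exact hb u i)
    simp only [tsum_zero] at hdom
    refine squeeze_zero (fun u => measureReal_nonneg) (fun u => ?_) hdom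
    have h1 : (φ u ⁻¹' ⋃ i, t i) ∆ (ψ u ⁻¹' ⋃ i, t i) ⊆ ⋃ i, (φ u ⁻¹' t i) ∆ (ψ u ⁻¹' t i) := by
      rintro x (⟨hx, hx'⟩ | ⟨hx, hx'⟩)
      · simp only [mem_preimage, mem_iUnion, not_exists] at hx hx'
        obtain ⟨i, hi⟩ := hx
        exact mem_iUnion.2 ⟨i, Or.inl ⟨hi, hx' i⟩⟩
      · simp only [mem_preimage, mem_iUnion, not_exists] at hx hx'
        obtain ⟨i, hi⟩ := hx
        exact mem_iUnion.2 ⟨i, Or.inr ⟨hi, hx' i⟩⟩
    have h2 : Summable fun i => P.real ((φ u ⁻¹' t i) ∆ (ψ u ⁻¹' t i)) :=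
      Summable.of_nonneg_of_le (fun _ => measureReal_nonneg) (hb u) (hsum.mul_left 2)
    have h3 : P ((φ u ⁻¹' ⋃ i, t i) ∆ (ψ u ⁻¹' ⋃ i, t i))
        ≤ ∑' i, P ((φ u ⁻¹' t i) ∆ (ψ u ⁻¹' t i)) :=
      (measure_mono h1).trans (measure_iUnion_le _)
    have h4 : ∑' i, P ((φ u ⁻¹' t i) ∆ (ψ u ⁻¹' t i))
        = ENNReal.ofReal (∑' i, P.real ((φ u ⁻¹' t i) ∆ (ψ u ⁻¹' t i))) := by
      rw [ENNReal.ofReal_tsum_of_nonneg (fun _ => measureReal_nonneg) h2]
      refine tsum_congr fun i => ?_
      rw [ofReal_measureReal (measure_ne_top _ _)]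
    rw [h4] at h3
    exact ENNReal.toReal_le_of_le_ofReal (tsum_nonneg fun _ => measureReal_nonneg) h3

/-- the same for bounded functions -/
theorem asym_fun {φ ψ : ι → Ω → Ω} (hφ : ∀ u, MeasurePreserving (φ u) P P)
    (hψ : ∀ u, MeasurePreserving (ψ u) P P) {C : Set (Set Ω)} (hC : IsPiSystem C)
    (hgen : mΩ = MeasurableSpace.generateFrom C)
    (h : ∀ A ∈ C, ∀ᶠ u in l, φ u ⁻¹' A = ψ u ⁻¹' A) {f : Ω → ℝ} (hf : Measurable f)
    (hb : ∃ K, ∀ b, |f b| ≤ K) :
    Tendsto (fun u => ∫ b, |f (φ u b) - f (ψ u b)| ∂P) l (𝓝 0) := by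
  -- reduction to `0 ≤ f`
  obtain ⟨K, hK⟩ := hb
  wlog hf0 : ∀ b, 0 ≤ f b generalizing f K with H
  · have := H (f := fun b => f b + K) (hf.add_const K) (2 * K) (fun b => by
      have := hK b
      rw [abs_le] at this ⊢
      constructor <;> linarith) (fun b => by
      have := hK b
      rw [abs_le] at this
      linarith)
    simpa using this
  have hdiff : ∀ (A : Set Ω), MeasurableSet A → ∀ u,
      ∫ b, |A.indicator (fun _ => (1 : ℝ)) (φ u b) - A.indicator (fun _ => (1 : ℝ)) (ψ u b)| ∂P
        = P.real ((φ u ⁻¹' A) ∆ (ψ u ⁻¹' A)) := by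
    intro A hA u
    have h1 : (fun b => |A.indicator (fun _ => (1 : ℝ)) (φ u b)
        - A.indicator (fun _ => (1 : ℝ)) (ψ u b)|)
        = ((φ u ⁻¹' A) ∆ (ψ u ⁻¹' A)).indicator (fun _ => (1 : ℝ)) := by
      funext b
      by_cases h1 : φ u b ∈ A <;> by_cases h2 : ψ u b ∈ A <;>
        simp [Set.indicator, Set.mem_symmDiff, h1, h2]
    rw [h1, integral_indicator (((hφ u).measurable hA).symmDiff ((hψ u).measurable hA))]
    simp
  rw [Metric.tendsto_nhds]
  intro ε hε
  obtain ⟨n, hn⟩ := exists_nat_gt (4 / ε)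
  have hn0 : (0 : ℝ) < n := lt_trans (by positivity) hn
  obtain ⟨M, hM⟩ := exists_nat_gt (n * K)
  set A : ℕ → Set Ω := fun k => {b | (k + 1 : ℝ) ≤ n * f b} with hA
  have hAm : ∀ k, MeasurableSet (A k) := fun k =>
    measurableSet_le measurable_const (hf.const_mul _)
  set s : Ω → ℝ := fun b => (∑ k ∈ Finset.range M, (A k).indicator (fun _ => (1 : ℝ)) b) / n
    with hs
  have happ : ∀ b, |f b - s b| ≤ 1 / n := by
    intro b
    have h1 : ∑ k ∈ Finset.range M, (A k).indicator (fun _ => (1 : ℝ)) b = ⌊n * f b⌋₊ := by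
      have h2 : ∀ k, (A k).indicator (fun _ => (1 : ℝ)) b = if k < ⌊n * f b⌋₊ then (1 : ℝ) else 0 := by
        intro k
        have h3 : b ∈ A k ↔ k < ⌊n * f b⌋₊ := by
          rw [hA, Set.mem_ofPred_eq, Nat.lt_iff_add_one_le, Nat.le_floor_iff
            (mul_nonneg hn0.le (hf0 b))]
          push_cast
          rfl
        by_cases h4 : b ∈ A k
        · rw [Set.indicator_of_mem h4, if_pos (h3.1 h4)]
        · rw [Set.indicator_of_notMem h4, if_neg (fun h5 => h4 (h3.2 h5))]
      simp only [h2]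
      rw [← Finset.sum_filter, Finset.sum_const, nsmul_eq_mul, mul_one]
      congr 1
      have h5 : ⌊n * f b⌋₊ ≤ M := by
        have h6 : (⌊n * f b⌋₊ : ℝ) ≤ n * f b := Nat.floor_le (mul_nonneg hn0.le (hf0 b))
        have h7 : f b ≤ K := (le_abs_self _).trans (hK b)
        have h8 : (⌊n * f b⌋₊ : ℝ) ≤ M := by
          calc (⌊n * f b⌋₊ : ℝ) ≤ n * f b := h6
            _ ≤ n * K := mul_le_mul_of_nonneg_left h7 hn0.le
            _ ≤ M := hM.le
        exact_mod_cast h8
      have h9 : (Finset.range M).filter (fun k => k < ⌊n * f b⌋₊) = Finset.range ⌊n * f b⌋₊ := by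
        ext k
        simp only [Finset.mem_filter, Finset.mem_range]
        omega
      rw [h9, Finset.card_range]
    rw [hs]
    simp only
    rw [h1]
    have h6 : (⌊n * f b⌋₊ : ℝ) ≤ n * f b := Nat.floor_le (mul_nonneg hn0.le (hf0 b))
    have h7 : n * f b < ⌊n * f b⌋₊ + 1 := Nat.lt_floor_add_one _
    have h8 : f b - (⌊n * f b⌋₊ : ℝ) / n = (n * f b - ⌊n * f b⌋₊) / n := by
      field_simp
    rw [h8, abs_div, abs_of_pos hn0, abs_of_nonneg (by linarith)]
    exact div_le_div_of_nonneg_right (by linarith) hn0.le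
  have hlim : Tendsto (fun u => (∑ k ∈ Finset.range M, P.real ((φ u ⁻¹' A k) ∆ (ψ u ⁻¹' A k))) / n)
      l (𝓝 0) := by
    have h1 : Tendsto (fun u => ∑ k ∈ Finset.range M, P.real ((φ u ⁻¹' A k) ∆ (ψ u ⁻¹' A k)))
        l (𝓝 (∑ k ∈ Finset.range M, 0)) :=
      tendsto_finsetSum _ fun k _ => asym_set hφ hψ hC hgen h (hAm k)
    simpa using h1.div_const (n : ℝ)
  rw [Metric.tendsto_nhds] at hlim
  filter_upwards [hlim (ε / 2) (by positivity)] with u hu
  rw [Real.dist_eq, sub_zero] at hu ⊢
  rw [abs_of_nonneg (integral_nonneg fun _ => abs_nonneg _)]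
  have hsum0 : (∑ k ∈ Finset.range M, P.real ((φ u ⁻¹' A k) ∆ (ψ u ⁻¹' A k))) / n < ε / 2 :=
    lt_of_abs_lt hu
  have hpt : ∀ b, |f (φ u b) - f (ψ u b)| ≤ 2 / n
      + (∑ k ∈ Finset.range M, |(A k).indicator (fun _ => (1 : ℝ)) (φ u b)
        - (A k).indicator (fun _ => (1 : ℝ)) (ψ u b)|) / n := by
    intro b
    have h1 := happ (φ u b)
    have h2 := happ (ψ u b)
    have h3 : |s (φ u b) - s (ψ u b)| ≤ (∑ k ∈ Finset.range M,
        |(A k).indicator (fun _ => (1 : ℝ)) (φ u b)
        - (A k).indicator (fun _ => (1 : ℝ)) (ψ u b)|) / n := by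
      rw [hs]
      simp only
      rw [← sub_div, ← Finset.sum_sub_distrib, abs_div, abs_of_pos hn0]
      exact div_le_div_of_nonneg_right (Finset.abs_sum_le_sum_abs _ _) hn0.le
    have h4 : (2 : ℝ) / n = 1 / n + 1 / n := by ring
    rw [h4]
    have h5 : f (φ u b) - f (ψ u b) = (f (φ u b) - s (φ u b)) + (s (φ u b) - s (ψ u b))
        - (f (ψ u b) - s (ψ u b)) := by ring
    rw [h5]
    calc |(f (φ u b) - s (φ u b)) + (s (φ u b) - s (ψ u b)) - (f (ψ u b) - s (ψ u b))|
        ≤ |(f (φ u b) - s (φ u b)) + (s (φ u b) - s (ψ u b))| + |f (ψ u b) - s (ψ u b)| :=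
          abs_sub _ _
      _ ≤ |f (φ u b) - s (φ u b)| + |s (φ u b) - s (ψ u b)| + |f (ψ u b) - s (ψ u b)| := by
          gcongr; exact abs_add_le _ _
      _ ≤ _ := by linarith
  have hmint : ∀ k, Integrable (fun b => |(A k).indicator (fun _ => (1 : ℝ)) (φ u b)
        - (A k).indicator (fun _ => (1 : ℝ)) (ψ u b)|) P := by
    intro k
    have h1 : Integrable ((A k).indicator (fun _ => (1 : ℝ))) P :=
      (integrable_const (1 : ℝ)).indicator (hAm k)
    exact (((hφ u).integrable_comp_of_integrable h1).sub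
      ((hψ u).integrable_comp_of_integrable h1)).abs
  have hkey : ∫ b, |f (φ u b) - f (ψ u b)| ∂P ≤ 2 / n
      + (∑ k ∈ Finset.range M, P.real ((φ u ⁻¹' A k) ∆ (ψ u ⁻¹' A k))) / n := by
    calc ∫ b, |f (φ u b) - f (ψ u b)| ∂P
        ≤ ∫ b, (2 / n + (∑ k ∈ Finset.range M, |(A k).indicator (fun _ => (1 : ℝ)) (φ u b)
          - (A k).indicator (fun _ => (1 : ℝ)) (ψ u b)|) / n) ∂P := by
          refine integral_mono_of_nonneg (Eventually.of_forall fun _ => abs_nonneg _) ?_
            (Eventually.of_forall hpt)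
          refine (integrable_const _).add (Integrable.div_const ?_ _)
          exact integrable_finsetSum _ fun k _ => hmint k
      _ = _ := by
          rw [integral_add (integrable_const _) (Integrable.div_const
            (integrable_finsetSum _ fun k _ => hmint k) _)]
          have e1 : ∫ b, (∑ k ∈ Finset.range M, |(A k).indicator (fun _ => (1 : ℝ)) (φ u b)
              - (A k).indicator (fun _ => (1 : ℝ)) (ψ u b)|) / n ∂P
              = (∑ k ∈ Finset.range M, P.real ((φ u ⁻¹' A k) ∆ (ψ u ⁻¹' A k))) / n := by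
            rw [integral_div, integral_finsetSum _ fun k _ => hmint k]
            simp only [hdiff _ (hAm _)]
          rw [e1]
          simp only [integral_const, probReal_univ, smul_eq_mul, one_mul]
  have h2n : (2 : ℝ) / n < ε / 2 := by
    rw [div_lt_iff₀ hn0]
    rw [div_lt_iff₀ hε] at hn
    linarith
  linarith

/-- mixing follows from mixing on a pi-system -/
theorem mix_set {φ : ι → Ω → Ω} (hφ : ∀ u, MeasurePreserving (φ u) P P)
    {C : Set (Set Ω)} (hC : IsPiSystem C)
    (hgen : mΩ = MeasurableSpace.generateFrom C)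
    (h : ∀ A ∈ C, ∀ B ∈ C, Tendsto (fun u => P.real (A ∩ φ u ⁻¹' B)) l (𝓝 (P.real A * P.real B)))
    {A B : Set Ω} (hA : MeasurableSet A) (hB : MeasurableSet B) :
    Tendsto (fun u => P.real (A ∩ φ u ⁻¹' B)) l (𝓝 (P.real A * P.real B)) := by
  have hval : ∀ (B : Set Ω), MeasurableSet B → ∀ u, P.real (φ u ⁻¹' B) = P.real B := by
    intro B hB u
    unfold Measure.real
    rw [(hφ u).measure_preimage hB.nullMeasurableSet]
  have hCm : ∀ A ∈ C, MeasurableSet A := by
    intro A hA
    rw [hgen]
    exact MeasurableSpace.measurableSet_generateFrom hA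
  -- first `B`
  have step1 : ∀ A ∈ C, ∀ B, MeasurableSet B →
      Tendsto (fun u => P.real (A ∩ φ u ⁻¹' B)) l (𝓝 (P.real A * P.real B)) := by
    intro A hAC B hB
    induction B, hB using MeasurableSpace.induction_on_inter hgen hC with
    | empty => simpa using tendsto_const_nhds
    | basic t ht => exact h A hAC t ht
    | compl t ht ih =>
      have h1 : ∀ u, P.real (A ∩ φ u ⁻¹' tᶜ) = P.real A - P.real (A ∩ φ u ⁻¹' t) := by
        intro u
        rw [preimage_compl, ← Set.sdiff_eq]
        have := measureReal_sdiff_add_inter (μ := P) (s := A) (t := φ u ⁻¹' t)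
          ((hφ u).measurable ht)
        linarith
      simp only [h1]
      have h2 : P.real A * P.real tᶜ = P.real A - P.real A * P.real t := by
        rw [probReal_compl_eq_one_sub ht]; ring
      rw [h2]
      exact tendsto_const_nhds.sub ih
    | iUnion t hd ht ih =>
      have hsum : Summable fun i => P.real (t i) := by
        have h1 : ∑' i, P (t i) ≠ ⊤ := by
          rw [← measure_iUnion hd ht]; exact measure_ne_top _ _
        exact ENNReal.summable_toReal h1
      have h1 : ∀ u, P.real (A ∩ φ u ⁻¹' ⋃ i, t i) = ∑' i, P.real (A ∩ φ u ⁻¹' t i) := by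
        intro u
        rw [preimage_iUnion, inter_iUnion]
        rw [measureReal_def, measure_iUnion, ENNReal.tsum_toReal_eq]
        · rfl
        · intro i; exact measure_ne_top _ _
        · intro i j hij
          exact ((hd hij).preimage (φ u)).mono inter_subset_right inter_subset_right
        · intro i
          exact (hCm A hAC).inter ((hφ u).measurable (ht i))
      have h2 : P.real (⋃ i, t i) = ∑' i, P.real (t i) := by
        rw [measureReal_def, measure_iUnion hd ht, ENNReal.tsum_toReal_eq]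
        · rfl
        · intro i; exact measure_ne_top _ _
      simp only [h1]
      rw [h2, ← tsum_mul_left]
      refine tendsto_tsum_of_dominated_convergence (bound := fun i => P.real (t i)) hsum ih
        (Eventually.of_forall fun u i => ?_)
      rw [Real.norm_of_nonneg measureReal_nonneg, ← hval (t i) (ht i) u]
      exact measureReal_mono inter_subset_right (measure_ne_top _ _)
  induction A, hA using MeasurableSpace.induction_on_inter hgen hC with
  | empty => simpa using tendsto_const_nhds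
  | basic t ht => exact step1 t ht B hB
  | compl t ht ih =>
    have h1 : ∀ u, P.real (tᶜ ∩ φ u ⁻¹' B) = P.real B - P.real (t ∩ φ u ⁻¹' B) := by
      intro u
      rw [← hval B hB u, inter_comm tᶜ, ← Set.sdiff_eq, inter_comm t]
      have := measureReal_sdiff_add_inter (μ := P) (s := φ u ⁻¹' B) (t := t) ht
      linarith
    simp only [h1]
    have h2 : P.real tᶜ * P.real B = P.real B - P.real t * P.real B := by
      rw [probReal_compl_eq_one_sub ht]; ring
    rw [h2]
    exact tendsto_const_nhds.sub ih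
  | iUnion t hd ht ih =>
    have hsum : Summable fun i => P.real (t i) := by
      have h1 : ∑' i, P (t i) ≠ ⊤ := by
        rw [← measure_iUnion hd ht]; exact measure_ne_top _ _
      exact ENNReal.summable_toReal h1
    have h1 : ∀ u, P.real ((⋃ i, t i) ∩ φ u ⁻¹' B) = ∑' i, P.real (t i ∩ φ u ⁻¹' B) := by
      intro u
      rw [iUnion_inter]
      rw [measureReal_def, measure_iUnion, ENNReal.tsum_toReal_eq]
      · rfl
      · intro i; exact measure_ne_top _ _
      · intro i j hij
        exact (hd hij).mono inter_subset_left inter_subset_left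
      · intro i
        exact (ht i).inter ((hφ u).measurable hB)
    have h2 : P.real (⋃ i, t i) = ∑' i, P.real (t i) := by
      rw [measureReal_def, measure_iUnion hd ht, ENNReal.tsum_toReal_eq]
      · rfl
      · intro i; exact measure_ne_top _ _
    simp only [h1]
    rw [h2, ← tsum_mul_right]
    refine tendsto_tsum_of_dominated_convergence (bound := fun i => P.real (t i)) hsum ih
      (Eventually.of_forall fun u i => ?_)
    rw [Real.norm_of_nonneg measureReal_nonneg]
    exact measureReal_mono inter_subset_left (measure_ne_top _ _)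

end Pool.Agent.Helper23.MM
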