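import Pool.Agent.Helper61.MM.DefsB
import Pool.Agent.Helper66.TJ.Q
import Pool.Agent.Helper42.EA.ZeroOne
import Pool.Agent.Helper23.MM.Asym

set_option autoImplicit false

/-!
# META-CONT: continuity and mixing for the law of weights and frustrated plaquettes
-/

namespace Pool.Agent.Helper23.MM

open MeasureTheory ProbabilityTheory Filter Topology Pool.Agent.Helper60.TJ
open Pool.Agent.Helper61.MM
open scoped symmDiff

variable {lam : Measure ℝ}

theorem prob_coin : IsProbabilityMeasure coin := by
  constructor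
  simp only [coin, Measure.smul_apply, Measure.add_apply, measure_univ, smul_eq_mul]
  rw [one_add_one_eq_two, ENNReal.inv_mul_cancel (by norm_num) (by norm_num)]

theorem prob_PB (hl : Wgt lam) : IsProbabilityMeasure (PB lam) := by
  have := hl.prob
  have := prob_coin
  infer_instance

/-- the pi-system of products of cylinders -/
def cyl : Set (Set WT) :=
  Set.image2 (· ×ˢ ·) (measurableCylinders (fun _ : Ed => ℝ)) (measurableCylinders (fun _ : Vx => Bool))

theorem isPiSystem_cyl : IsPiSystem cyl :=
  isPiSystem_measurableCylinders.prod isPiSystem_measurableCylinders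

theorem generateFrom_cyl : (inferInstance : MeasurableSpace WT) = MeasurableSpace.generateFrom cyl := by
  symm
  refine generateFrom_eq_prod generateFrom_measurableCylinders generateFrom_measurableCylinders
    ?_ ?_
  · exact ⟨fun _ => Set.univ, fun _ => univ_mem_measurableCylinders _, Set.iUnion_const _⟩
  · exact ⟨fun _ => Set.univ, fun _ => univ_mem_measurableCylinders _, Set.iUnion_const _⟩

theorem mp_shT (u : Vx) : MeasurePreserving (shT u) PT PT := by
  have := prob_coin
  exact Pool.Agent.Helper42.EA.measurePreserving_comp coin (Equiv.addRight u)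

theorem coin_xor (c : Bool) : coin.map (fun x => xor x c) = coin := by
  cases c
  · simp
  · have h1 : Measurable (fun x : Bool => xor x true) := measurable_from_top
    rw [coin, Measure.map_smul, Measure.map_add _ _ h1, Measure.map_dirac' h1,
      Measure.map_dirac' h1]
    simp only [Bool.xor_true, Bool.not_true, Bool.not_false]
    rw [add_comm]

theorem mp_vx (S : Finset Vx) : MeasurePreserving (fun T => vx T (indV S)) PT PT := by
  have := prob_coin
  have h1 : ∀ v : Vx, Measurable (fun x : Bool => xor x (indV S v)) := fun _ => measurable_from_top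
  refine ⟨measurable_pi_lambda _ fun v => (h1 v).comp (measurable_pi_apply v), ?_⟩
  have h2 := Measure.infinitePi_map_pi (X := fun _ : Vx => Bool) (Y := fun _ : Vx => Bool)
    (μ := fun _ : Vx => coin) (f := fun v x => xor x (indV S v)) h1
  refine h2.trans ?_
  congr 1
  funext v
  exact coin_xor _

theorem mp_shB (hl : Wgt lam) (u : Vx) : MeasurePreserving (shB u) (PB lam) (PB lam) := by
  have := hl.prob
  have := prob_coin
  exact (mp_sh lam u).prod (mp_shT u)

theorem mp_tB (hl : Wgt lam) (S : Finset Vx) : MeasurePreserving (tB S) (PB lam) (PB lam) := by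
  have := hl.prob
  have := prob_coin
  exact (MeasurePreserving.id (PP lam)).prod (mp_vx S)

theorem ev_ne (v w : Vx) : ∀ᶠ u in (cofinite : Filter Vx), v + u ≠ w := by
  have : {u : Vx | v + u = w}.Finite := by
    refine Set.Finite.subset (Set.finite_singleton (w - v)) ?_
    intro u hu
    have hu' : v + u = w := hu
    rw [Set.mem_singleton_iff, ← hu']
    abel
  exact this.eventually_cofinite_notMem

theorem ev_notMem (I S : Finset Vx) : ∀ᶠ u in (cofinite : Filter Vx), ∀ v ∈ I, v + u ∉ S := by
  rw [eventually_all_finset]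
  intro v _
  have : ∀ᶠ u in (cofinite : Filter Vx), ∀ w ∈ S, v + u ≠ w := by
    rw [eventually_all_finset]
    intro w _
    exact ev_ne v w
  filter_upwards [this] with u hu h
  exact hu _ h rfl

theorem ev_notMem' (I : Finset Vx) : ∀ᶠ u in (cofinite : Filter Vx), u ∉ I := by
  exact I.finite_toSet.eventually_cofinite_notMem

/-- a toggle far away is not seen: `S` is toggled, seen from `u` -/
theorem far_toggle (hl : Wgt lam) {f : WT → ℝ} (hf : Measurable f) (hb : ∃ C, ∀ b, |f b| ≤ C)
    (S : Finset Vx) : Tendsto (fun u : Vx => ∫ b, |f (shB u (tB S b)) - f (shB u b)| ∂(PB lam))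
      cofinite (𝓝 0) := by
  have := prob_PB hl
  refine asym_fun (φ := fun u b => shB u (tB S b)) (ψ := fun u b => shB u b)
    (fun u => (mp_shB hl u).comp (mp_tB hl S)) (fun u => mp_shB hl u) isPiSystem_cyl
    generateFrom_cyl ?_ hf hb
  rintro _ ⟨A, _, B, hB, rfl⟩
  obtain ⟨I, T, _, rfl⟩ := (mem_measurableCylinders B).1 hB
  filter_upwards [ev_notMem I S] with u hu
  ext b
  simp only [Set.mem_preimage, Set.mem_prod, mem_cylinder]
  have h1 : I.restrict (shB u (tB S b)).2 = I.restrict (shB u b).2 := by
    funext v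
    simp only [Finset.restrict, shB, tB, shT, vx, indV, decide_eq_false (hu v v.2), Bool.xor_false]
  have h2 : (shB u (tB S b)).1 = (shB u b).1 := rfl
  rw [h2]
  exact and_congr_right fun _ => by rw [h1]

/-- a single far toggle is not seen -/
theorem far_one (hl : Wgt lam) {f : WT → ℝ} (hf : Measurable f) (hb : ∃ C, ∀ b, |f b| ≤ C) :
    Tendsto (fun v : Vx => ∫ b, |f (tB {v} b) - f b| ∂(PB lam)) cofinite (𝓝 0) := by
  have := prob_PB hl
  refine asym_fun (φ := fun v b => tB {v} b) (ψ := fun _ b => b)
    (fun v => mp_tB hl {v}) (fun _ => MeasurePreserving.id _) isPiSystem_cyl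
    generateFrom_cyl ?_ hf hb
  rintro _ ⟨A, _, B, hB, rfl⟩
  obtain ⟨I, T, _, rfl⟩ := (mem_measurableCylinders B).1 hB
  filter_upwards [ev_notMem' I] with v hv
  ext b
  simp only [Set.mem_preimage, Set.mem_prod, mem_cylinder]
  have h1 : I.restrict (tB {v} b).2 = I.restrict b.2 := by
    funext w
    have hw : (w : Vx) ≠ v := fun h => hv (h ▸ w.2)
    simp [Finset.restrict, tB, vx, indV, hw]
  have h2 : (tB {v} b).1 = b.1 := rfl
  rw [h2]
  exact and_congr_right fun _ => by rw [h1]

/-- two cylinders are independent after a large shift -/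
theorem cyl_mix {ι X : Type*} [MeasurableSpace X] (μ : Measure X) [IsProbabilityMeasure μ]
    (g : Vx → Equiv.Perm ι) (hg : ∀ i j : ι, ∀ᶠ u in (cofinite : Filter Vx), g u i ≠ j)
    {A B : Set (ι → X)} (hA : A ∈ measurableCylinders (fun _ : ι => X))
    (hB : B ∈ measurableCylinders (fun _ : ι => X)) :
    ∀ᶠ u in (cofinite : Filter Vx), Measure.infinitePi (fun _ : ι => μ)
      (A ∩ (fun J : ι → X => fun i => J (g u i)) ⁻¹' B)
      = Measure.infinitePi (fun _ : ι => μ) A * Measure.infinitePi (fun _ : ι => μ) B := by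
  classical
  obtain ⟨I, S, hS, rfl⟩ := (mem_measurableCylinders A).1 hA
  obtain ⟨I', S', hS', rfl⟩ := (mem_measurableCylinders B).1 hB
  have hev : ∀ᶠ u in (cofinite : Filter Vx), ∀ i ∈ I', ∀ j ∈ I, g u i ≠ j := by
    rw [eventually_all_finset]
    intro i _
    rw [eventually_all_finset]
    intro j _
    exact hg i j
  filter_upwards [hev] with u hu
  have hθm := Pool.Agent.Helper42.EA.measurePreserving_comp μ (g u)
  let r : (∀ _ : (I'.map (g u).toEmbedding : Finset ι), X) → (∀ _ : I', X) :=
    fun f i => f ⟨g u i, Finset.mem_map_of_mem _ i.2⟩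
  have hr : Measurable r := by
    apply measurable_pi_iff.2
    intro i
    exact measurable_pi_apply _
  have hCpre : (fun J : ι → X => fun i => J (g u i)) ⁻¹' (cylinder (α := fun _ : ι => X) I' S')
      = cylinder (α := fun _ : ι => X) (I'.map (g u).toEmbedding) (r ⁻¹' S') := by
    ext J
    rfl
  have hdisj : Disjoint I (I'.map (g u).toEmbedding) := by
    rw [Finset.disjoint_left]
    intro i hi hi'
    obtain ⟨j, hj, hij⟩ := Finset.mem_map.1 hi'
    exact hu j hj i hi hij
  have hind := Pool.Agent.Helper42.EA.indep_cylinders μ I (I'.map (g u).toEmbedding) hdisj hS (hr hS')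
  rw [← hCpre, hθm.measure_preimage (MeasurableSet.cylinder I' hS').nullMeasurableSet] at hind
  exact hind

theorem mixing (hl : Wgt lam) {A B : Set WT} (hA : MeasurableSet A) (hB : MeasurableSet B) :
    Tendsto (fun u : Vx => PB lam (A ∩ shB u ⁻¹' B)) cofinite (𝓝 (PB lam A * PB lam B)) := by
  have := prob_PB hl
  have hP := hl.prob
  have hc := prob_coin
  have key := mix_set (P := PB lam) (l := (cofinite : Filter Vx)) (φ := fun u b => shB u b)
    (fun u => mp_shB hl u) isPiSystem_cyl generateFrom_cyl (by
      rintro _ ⟨A₁, hA₁, A₂, hA₂, rfl⟩ _ ⟨B₁, hB₁, B₂, hB₂, rfl⟩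
      refine tendsto_const_nhds.congr' ?_
      have h1 := cyl_mix lam (fun u => Pool.Agent.Helper60.TJ.shE u) (by
        intro i j
        filter_upwards [ev_ne i.1 j.1] with u hu h
        exact hu (congrArg Prod.fst h)) hA₁ hB₁
      have h2 := cyl_mix coin (fun u => Equiv.addRight u) (by
        intro i j
        filter_upwards [ev_ne i j] with u hu h
        exact hu h) hA₂ hB₂
      filter_upwards [h1, h2] with u h3 h4
      have h5 : (A₁ ×ˢ A₂) ∩ (fun b => shB u b) ⁻¹' (B₁ ×ˢ B₂)
          = (A₁ ∩ (fun J : Ed → ℝ => fun i => J (Pool.Agent.Helper60.TJ.shE u i)) ⁻¹' B₁) ×ˢ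
            (A₂ ∩ (fun T : Vx → Bool => fun i => T (Equiv.addRight u i)) ⁻¹' B₂) := by
        ext b
        simp only [Set.mem_inter_iff, Set.mem_prod, Set.mem_preimage]
        constructor
        · rintro ⟨⟨a, b⟩, c, d⟩; exact ⟨⟨a, c⟩, b, d⟩
        · rintro ⟨⟨a, c⟩, b, d⟩; exact ⟨⟨a, b⟩, c, d⟩
      rw [h5, measureReal_def, measureReal_def, measureReal_def, Measure.prod_prod,
        Measure.prod_prod, Measure.prod_prod, h3, h4]
      simp only [ENNReal.toReal_mul]
      ring) hA hB
  have key' : Tendsto (fun u : Vx => (PB lam (A ∩ shB u ⁻¹' B)).toReal) cofinite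
      (𝓝 (PB lam A * PB lam B).toReal) := by
    rw [ENNReal.toReal_mul]
    exact key
  exact (ENNReal.tendsto_toReal_iff (fun u => measure_ne_top _ _)
    (ENNReal.mul_ne_top (measure_ne_top _ _) (measure_ne_top _ _))).1 key'

theorem zero_one_B (hl : Wgt lam) {A : Set WT} (hA : MeasurableSet A)
    (hi : ∀ u, ∀ᵐ b ∂(PB lam), shB u b ∈ A ↔ b ∈ A) : PB lam A = 0 ∨ PB lam A = 1 := by
  have := prob_PB hl
  have h1 := mixing hl hA hA
  have h2 : ∀ u : Vx, PB lam (A ∩ shB u ⁻¹' A) = PB lam A := by
    intro u
    refine measure_congr ?_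
    filter_upwards [hi u] with b hb
    refine propext ?_
    constructor
    · intro h; exact h.1
    · intro h; exact ⟨h, hb.2 h⟩
  simp only [h2] at h1
  have h3 : PB lam A = PB lam A * PB lam A := tendsto_nhds_unique tendsto_const_nhds h1
  by_cases h0 : PB lam A = 0
  · exact Or.inl h0
  · right
    have h4 : PB lam A * 1 = PB lam A * PB lam A := by rw [mul_one]; exact h3
    exact ((ENNReal.mul_right_inj h0 (measure_ne_top _ _)).1 h4).symm

theorem const_B (hl : Wgt lam) {f : WT → ℝ} (hf : Measurable f)
    (hi : ∀ u, ∀ᵐ b ∂(PB lam), f (shB u b) = f b) : ∃ c, ∀ᵐ b ∂(PB lam), f b = c := by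
  have := prob_PB hl
  have h := Filter.exists_eventuallyEq_const_of_forall_separating (l := ae (PB lam)) (f := f)
    (fun U => MeasurableSet U) (fun U hU => by
      rcases zero_one_B hl (hf hU) (fun u => by
        filter_upwards [hi u] with b hb
        simp only [Set.mem_preimage, hb]) with h1 | h1
      · right
        rw [measure_eq_zero_iff_ae_notMem] at h1
        exact h1
      · left
        have h2 : ∀ᵐ b ∂(PB lam), b ∈ f ⁻¹' U := by
          rw [← prob_compl_eq_zero_iff (hf hU)] at h1
          exact h1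
        exact h2)
  obtain ⟨c, hc⟩ := h
  exact ⟨c, hc⟩

end Pool.Agent.Helper23.MM
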